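import Pool.Agent.Y744.PCR.Glue
import Pool.Agent.V8H36.KL.Full2

set_option autoImplicit false

/-! Pairs of distinct indices against pair sums over zeros. -/

open Filter Topology MeasureTheory Real

namespace Pool.Agent.V8H36.PCR

open Pool.Agent Pool.Agent.Y744 Pool.Agent.V8H36.KL

/-- pairs of distinct indices -/
def N2S (T α β : ℝ) : Set (ℕ × ℕ) :=
  {p | p.1 ≠ p.2 ∧ 1 ≤ p.1 ∧ 1 ≤ p.2 ∧ SG.ord p.1 ≤ T ∧ SG.ord p.2 ≤ T ∧
    (SG.ord p.1 - SG.ord p.2) * (Real.log T / (2 * Real.pi)) ∈ Set.Icc α β}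

theorem N2S_eq (T α β : ℝ) : N2S T α β = ↑(((Finset.Icc 1 (SG.NZ T)) ×ˢ (Finset.Icc 1 (SG.NZ T))).filter
    (fun p : ℕ × ℕ => p.1 ≠ p.2 ∧ (SG.ord p.1 - SG.ord p.2) * (Real.log T / (2 * Real.pi)) ∈ Set.Icc α β)) := by
  ext p
  unfold N2S
  rw [Finset.mem_coe, Finset.mem_filter, Finset.mem_product, Finset.mem_Icc, Finset.mem_Icc]
  constructor
  · rintro ⟨h1, h2, h3, h4, h5, h6⟩
    exact ⟨⟨⟨h2, (SG.ord_le_iff h2 T).1 h4⟩, h3, (SG.ord_le_iff h3 T).1 h5⟩, h1, h6⟩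
  · rintro ⟨⟨⟨h2, h4⟩, h3, h5⟩, h1, h6⟩
    exact ⟨h1, h2, h3, (SG.ord_le_iff h2 T).2 h4, (SG.ord_le_iff h3 T).2 h5, h6⟩

theorem Z0_eq (T : ℝ) : Z0 T = Zt T := by
  ext s
  rw [mem_Z0, mem_Zt]
  constructor
  · rintro ⟨h1, h2, h3, h4, h5⟩
    exact ⟨h2, h3, h4, h5, h1⟩
  · rintro ⟨h2, h3, h4, h5, h1⟩
    exact ⟨h1, h2, h3, h4, h5⟩

theorem mz_eq (s : ℂ) : (SG.zmult s : ℝ) = mz s := rfl

/-- the pair sum in terms of indices -/
theorem PC_ord (T : ℝ) (S : Set ℝ) : PC T S = ∑ m ∈ Finset.Icc 1 (SG.NZ T), ∑ n ∈ Finset.Icc 1 (SG.NZ T),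
    S.indicator (fun _ => (1 : ℝ)) ((SG.ord m - SG.ord n) * (Real.log T / (2 * Real.pi))) := by
  have h1 : ∀ m : ℕ, ∑ n ∈ Finset.Icc 1 (SG.NZ T),
      S.indicator (fun _ => (1 : ℝ)) ((SG.ord m - SG.ord n) * (Real.log T / (2 * Real.pi))) =
      ∑ s' ∈ Z0 T, (SG.zmult s' : ℝ) * S.indicator (fun _ => (1 : ℝ)) ((SG.ord m - s'.im) * (Real.log T / (2 * Real.pi))) := by
    intro m
    exact sum_ord T (fun x => S.indicator (fun _ => (1 : ℝ)) ((SG.ord m - x) * (Real.log T / (2 * Real.pi))))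
  rw [Finset.sum_congr rfl fun m _ => h1 m]
  rw [sum_ord T (fun y => ∑ s' ∈ Z0 T, (SG.zmult s' : ℝ) *
    S.indicator (fun _ => (1 : ℝ)) ((y - s'.im) * (Real.log T / (2 * Real.pi))))]
  unfold PC
  rw [Z0_eq]
  refine Finset.sum_congr rfl fun s _ => ?_
  rw [Finset.mul_sum]
  refine Finset.sum_congr rfl fun s' _ => ?_
  rw [mz_eq, mz_eq, ← mul_assoc]
  congr 2
  unfold dd
  ring

theorem N2_eq (T α β : ℝ) : ((N2S T α β).ncard : ℝ) = PC T (Set.Icc α β) -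
    (Set.Icc α β).indicator (fun _ => (SG.NZ T : ℝ)) 0 := by
  classical
  rw [N2S_eq, Set.ncard_coe_finset, PC_ord]
  have h1 : ((Finset.filter (fun p : ℕ × ℕ => p.1 ≠ p.2 ∧ (SG.ord p.1 - SG.ord p.2) * (Real.log T / (2 * Real.pi)) ∈ Set.Icc α β)
      ((Finset.Icc 1 (SG.NZ T)) ×ˢ (Finset.Icc 1 (SG.NZ T)))).card : ℝ) =
      ∑ m ∈ Finset.Icc 1 (SG.NZ T), ∑ n ∈ Finset.Icc 1 (SG.NZ T),
        ((Set.Icc α β).indicator (fun _ => (1 : ℝ)) ((SG.ord m - SG.ord n) * (Real.log T / (2 * Real.pi))) -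
          if m = n then (Set.Icc α β).indicator (fun _ => (1 : ℝ)) 0 else 0) := by
    rw [Finset.card_filter, Finset.sum_product]
    push_cast
    refine Finset.sum_congr rfl fun m _ => Finset.sum_congr rfl fun n _ => ?_
    by_cases hmn : m = n
    · subst hmn
      rw [if_neg (fun h => h.1 rfl), if_pos rfl, sub_self, zero_mul, sub_self]
    · rw [if_neg hmn, sub_zero]
      by_cases h : (SG.ord m - SG.ord n) * (Real.log T / (2 * Real.pi)) ∈ Set.Icc α β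
      · rw [if_pos ⟨hmn, h⟩, Set.indicator_of_mem h]
      · rw [if_neg (fun h' => h h'.2), Set.indicator_of_notMem h]
  rw [h1]
  simp_rw [Finset.sum_sub_distrib]
  congr 1
  have h2 : ∀ m ∈ Finset.Icc 1 (SG.NZ T), (∑ n ∈ Finset.Icc 1 (SG.NZ T),
      if m = n then (Set.Icc α β).indicator (fun _ => (1 : ℝ)) 0 else 0) = (Set.Icc α β).indicator (fun _ => (1 : ℝ)) 0 := by
    intro m hm
    rw [Finset.sum_ite_eq, if_pos hm]
  rw [Finset.sum_congr rfl h2, Finset.sum_const, Nat.card_Icc, nsmul_eq_mul]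
  by_cases h : (0 : ℝ) ∈ Set.Icc α β
  · rw [Set.indicator_of_mem h, Set.indicator_of_mem h]
    simp
  · rw [Set.indicator_of_notMem h, Set.indicator_of_notMem h, mul_zero]

/-- normalised -/
theorem N2_Nr {T : ℝ} (α β : ℝ) : ((N2S T α β).ncard : ℝ) / Xf T = Nr T α β -
    (Set.Icc α β).indicator (fun _ => (SG.NZ T : ℝ) / Xf T) 0 := by
  rw [N2_eq]
  unfold Nr
  rw [sub_div]
  congr 1
  by_cases h : (0 : ℝ) ∈ Set.Icc α β
  · rw [Set.indicator_of_mem h, Set.indicator_of_mem h]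
  · rw [Set.indicator_of_notMem h, Set.indicator_of_notMem h, zero_div]

theorem NZ_Xf : Tendsto (fun T : ℝ => (SG.NZ T : ℝ) / Xf T) atTop (𝓝 1) := by
  rw [Metric.tendsto_nhds]
  intro ε hε
  have hpi := Real.pi_gt_three
  filter_upwards [NZ_asymp (ε / (4 * Real.pi)) (by positivity), eventually_gt_atTop (1 : ℝ)] with T h hT
  have hX : 0 < Xf T := Xf_pos hT
  rw [Real.dist_eq]
  have e : (SG.NZ T : ℝ) / Xf T - 1 = ((SG.NZ T : ℝ) - Xf T) / Xf T := by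
    rw [sub_div, div_self hX.ne']
  rw [e, abs_div, abs_of_pos hX, div_lt_iff₀ hX]
  refine lt_of_le_of_lt h ?_
  have hTl : 0 < T * Real.log T := by
    have := Real.log_pos hT
    positivity
  unfold Xf
  have e2 : ε * (T * Real.log T / (2 * Real.pi)) = 2 * (ε / (4 * Real.pi) * (T * Real.log T)) := by
    field_simp
    ring
  rw [e2]
  have : 0 < ε / (4 * Real.pi) * (T * Real.log T) := by positivity
  linarith

/-- the law for one window -/
theorem law_iff {l : Filter ℝ} (hl : l ≤ atTop) (α β : ℝ) :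
    Tendsto (fun T => ((N2S T α β).ncard : ℝ) / Xf T) l (𝓝 (gp β - gp α)) ↔
      Tendsto (fun T => Nr T α β) l (𝓝 (pr α β)) := by
  have h0 : Tendsto (fun T => (Set.Icc α β).indicator (fun _ => (SG.NZ T : ℝ) / Xf T) 0) l
      (𝓝 ((Set.Icc α β).indicator (fun _ => 1) 0)) := by
    by_cases h : (0 : ℝ) ∈ Set.Icc α β
    · simp_rw [Set.indicator_of_mem h]
      exact NZ_Xf.mono_left hl
    · simp_rw [Set.indicator_of_notMem h]
      exact tendsto_const_nhds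
  unfold pr
  constructor
  · intro h
    refine (h.add h0).congr fun T => ?_
    rw [N2_Nr]
    ring
  · intro h
    have h1 := h.sub h0
    rw [add_sub_cancel_right] at h1
    refine h1.congr fun T => ?_
    rw [N2_Nr]

end Pool.Agent.V8H36.PCR
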